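import Mathlib

/-!
# A non-bipartite graph whose fully active cop number exceeds its cop number

The graph has 14 vertices and 28 edges; it contains triangles.  Two cops win the usual (passive) game
of Cops and Robbers on it, and one cop does not; two cops do not win the fully active game.
-/

set_option autoImplicit false

namespace Pool.Agent.Results.MP_bb83f1_co.ActiveExceeds

/-- `M x y` means that a player may go from `x` to `y`.  The cops are at `c` and have to move, the
robber is at `r`.  The cops can force a capture in finitely many rounds: they have a joint move to `d`
such that they capture the robber by this move, or else every move of the robber leads to a vertex with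
a cop or to a position which is won for the cops. -/
inductive Wins {V : Type} (M : V → V → Prop) {k : ℕ} : (Fin k → V) → V → Prop
  | step (c : Fin k → V) (r : V) (d : Fin k → V) (hd : ∀ i, M (c i) (d i))
      (h : ∀ w, (∀ i, d i ≠ r) → M r w → (∀ i, d i ≠ w) → Wins M d w) : Wins M c r

/-- `k` cops have a winning strategy in the game in which both sides move according to `M`. -/
def CopsWin {V : Type} (M : V → V → Prop) (k : ℕ) : Prop :=
  ∃ c : Fin k → V, ∀ r : V, (∀ i, c i ≠ r) → Wins M c r

/-- The moves of the passive game: stay put or go to an adjacent vertex. -/
def Passive {V : Type} (G : SimpleGraph V) (x y : V) : Prop := y = x ∨ G.Adj x y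

/-- The moves of the fully active game: go to an adjacent vertex. -/
def Active {V : Type} (G : SimpleGraph V) (x y : V) : Prop := G.Adj x y

/-- The cop number `c(G)`. -/
noncomputable def cop {V : Type} (G : SimpleGraph V) : ℕ := sInf {k | CopsWin (Passive G) k}

/-- The fully active cop number `c_a(G)`. -/
noncomputable def acop {V : Type} (G : SimpleGraph V) : ℕ := sInf {k | CopsWin (Active G) k}

/-- The edges of the graph. -/
def edges : List (Fin 14 × Fin 14) := 
  [(0, 1), (0, 5), (1, 5), (2, 5), (0, 6), (1, 6), (2, 6), (3, 7), (4, 7), (5, 7), (6, 7),
   (0, 8), (1, 8), (3, 8), (1, 9), (3, 9), (2, 10), (4, 10), (9, 10), (4, 11), (8, 11), (9, 11),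
   (10, 11), (2, 12), (3, 12), (0, 13), (4, 13), (12, 13)]

/-- The adjacency. -/
def adj (i j : Fin 14) : Bool := edges.contains (i, j) || edges.contains (j, i)

/-- The graph. -/
def G : SimpleGraph (Fin 14) where
  Adj i j := adj i j = true
  symm := ⟨by decide⟩
  loopless := ⟨by decide⟩

/-- The number of a position with two cops. -/
def idx (a b r : Fin 14) : ℕ := (a.val * 14 + b.val) * 14 + r.val

/-- Rank table of the winning strategy in the passive game. -/
def rk (a b r : Fin 14) : ℕ := (77183419608667052150672765244259476835003739243843723006699855942631047966596676287031362991334028504974624520175266746698978194846343222747500781761362890072568399153344103447196078506649142534750007896205335214785653191409611230872844381109662787529590004235142611608766491529914611345133073496347287852941718227451062462148382832701724815860536006537735811897103411166068098915160062625855289472559949321921809471796994394494080860096942271489112178718637740033453122559596226856682799677541936972633285383328719812734122978098277076393376505986885668187329903230247475356681828605922682878856824951673423618985749723513804320460035551783670266510300463190005066436592494773085245321035592640897856017211012562692531606608681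42710403487337336510676308300448976635875044182127179684973089386575700490129780746377155900089207257765931232916051214844089380202779509711405223480832896853160284159682257706065695564924615622653479058481351039597701103214534781038344839327384153059166453276717174831910725750691551514533188365673005301046875120818688411882330720719437690543927049348690626131726161468995212166043544183379023246328214337636467076524301265179114856697000727463159540857386950040369309122665473853139502491724817672160313804305404146151946407825031912026315288109843861431889885515165264420738317853296907073307348803705748816194206940695731815371321752464327319601468955477050256388291074862973501604712248953676706555206498539120285810073185646386335929925712591963767137346031638803562751270586404460515139239236716660015277522219303559162588397893232914541787522866086342570345314145660140041687120053791899505880048338156266393999364163244481007292557843343695167552327270558455369568309244980248689692439890874468694560212630110208 >>> (4 * idx a b r)) % 16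

/-- Strategy table of the passive game. -/
def mv (a b r : Fin 14) : ℕ := (96734858197074291199559431047622338569977523033430866651717498178459059084213370660531080387948733483608089712988306087060781828942508058152601785367154051741227561746148868095077879534684000353922623500034292028758589523094305789478033901503039341367636786076972660804176773456572040649838507886062153831106820688240427074766689546211811975362457463106509690145189675683117471881933981879987064811856102494353827833190551433979396902673352335202333824126439665255748836737842635426166546816262606683146274862842203422858171587944590182047551934355560672824108248094906825804922358912061116786557724369920606151992775372074741691746163736451696637871550024135601006101000824953393444968168030466710535994509673161050758830898951764181519016352108428879876511257327790650372278407943649741323435114536953291553004166847507847650274673451112829244218149770629106138936702664373928372091871588183058473446316677162445284338048196634277149530516900899920453177899818028203945367081281738359126283909213620570297858299082345782008546730026783100514785691646359090181453730044591685475384437755362003256553822475918236500527330143038121487066345551690956685250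0831081195960955019937984857155805145917186665793100390890492731675505265365869992824338472941480163104424605986577315136727242294427214504846545967502889049783583228749094562719860348272229474706909729377381122352419110081391626519820468644934762581286244510522663733968225071843367985786930613741522405762466144741838586410697049014477770293232183135225104928513648740396056400871446012191173158446330582111767575130399427023094584644644234758011473835861113998579141458873379334056951806716876506679965096869937060009483901706837391524815192574531086857667522560047263549545029935753729071573225320494191458228429442316502787792590547784229120440931721137696845016549754237177441943368408288660601674554155791004274011117690585497746538418340714406048497135561370696427813332699019445794095303934081032590815038624742700870375885512807109671268817558686696662237059298495336518188715301775080155430275274518833013492886663590750134529345634652232018665465725553113591868409371712337421042895577241211872158302575360264704019547133887582287554518889223111045088996960458091522372700076182729491137060166382083016127116677050313637564341248307963778123257625471064765067320280112012997994178309212022654477305426667334790086082043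085126684680871873762580109346230801208157693442971683253627035385159954522659108332061020825653951609490420520887010604112818939903367663058344208843456983150494894942444866237111088687584989131760956627772681528467622371718828889512908035748161313658945725464772646324996263620421374974301622292402079212664665814658089287714110042192026819971718605090172774683039492844134636983689520970105425352932292831582150684434449996482109696945728032822392457575398300470694160354211613697601965482587633619794507951085813145338779410287309626887785287198567035077013593677384850783349109496206638798604008381373386022001331925519853690571517374838974660113803446358852364617784505678945361543111342898826142238059003923187923948923102583978060083124885615860507461001534492557074269976015711864718867461372540683631654516105912716503480419104272800124824513196085007784789028061467849276527611094609184932827566588345736875889676875572307525015488547743218755408862936160678755247933837725637113589271999792950589408516287928046416276464693435831695357533241566726152896986370725078336824648900491316286174281418183540736 >>> (8 * idx a b r)) % 256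

/-- The move of the first cop. -/
def mv0 (a b r : Fin 14) : Fin 14 := ⟨(mv a b r / 16) % 14, Nat.mod_lt _ (by norm_num)⟩

/-- The move of the second cop. -/
def mv1 (a b r : Fin 14) : Fin 14 := ⟨(mv a b r % 16) % 14, Nat.mod_lt _ (by norm_num)⟩

/-- All vertices. -/
def vs : List (Fin 14) := [0, 1, 2, 3, 4, 5, 6, 7, 8, 9, 10, 11, 12, 13]

lemma mem_vs (x : Fin 14) : x ∈ vs := by revert x; decide

/-- The check of the strategy. -/
def checkP : Bool :=
  vs.all fun a => vs.all fun b => vs.all fun r =>
    rk a b r == 0 ||
      ((mv0 a b r == a || adj a (mv0 a b r)) && (mv1 a b r == b || adj b (mv1 a b r)) &&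
        (mv0 a b r == r || mv1 a b r == r ||
          vs.all fun w => !(w == r || adj r w) || mv0 a b r == w || mv1 a b r == w ||
            (0 < rk (mv0 a b r) (mv1 a b r) w && rk (mv0 a b r) (mv1 a b r) w < rk a b r)))

lemma checkP_eq : checkP = true := by decide +kernel

/-- The table of the positions of the active game which are safe for the robber. -/
def safe (a b r : Fin 14) : Bool := Nat.testBit 1315161591922142450575504864494224394090397080088489903892069437810601461233920658362021441419092483370222221055092534224001382299682270298762992680846181888389649952604289313188431596962689897320590177792363456128331482236357816286381222183267455952911726179889288507158976526087686949992260792344744349332073727609870673755043108051474369377165610365978121295976569584587738973786499769501679805701003744529082749937822682208604552862128952191069723598387469578971777425267121049912160217920620916464971047360017817514745390504375753713301417082839387405658111567741738498041979826514728555510382375263305180766467851125428817126905982314629775467770716671414500952275062168774637953506616762686850395522698582622799619654715384553049294180974361577131644500891841411976519691522045720565526105115160192740835943854071291036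 (idx a b r)

/-- The check of the safe positions. -/
def checkA : Bool :=
  vs.all fun a => vs.all fun b => vs.all fun r => !safe a b r ||
    vs.all fun d => !adj a d || vs.all fun e => !adj b e ||
      (d != r && e != r && vs.any fun w => adj r w && d != w && e != w && safe d e w)

lemma checkA_eq : checkA = true := by decide +kernel

lemma wins_of_rk : ∀ (n : ℕ) (c : Fin 2 → Fin 14) (r : Fin 14), rk (c 0) (c 1) r = n → 0 < n →
    Wins (Passive G) c r := by
  intro n
  induction n using Nat.strong_induction_on with
  | _ n ih =>
    intro c r hn h0
    have h := checkP_eq
    simp only [checkP, List.all_eq_true, Bool.or_eq_true, Bool.and_eq_true, beq_iff_eq,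
      Bool.not_eq_true', decide_eq_true_eq] at h
    have h1 := h (c 0) (mem_vs _) (c 1) (mem_vs _) r (mem_vs _)
    rcases h1 with h1 | ⟨⟨hm0, hm1⟩, hw⟩
    · omega
    refine Wins.step c r ![mv0 (c 0) (c 1) r, mv1 (c 0) (c 1) r] ?_ ?_
    · intro i
      fin_cases i
      · exact hm0
      · exact hm1
    · intro w hr hrw hc
      have hr0 : mv0 (c 0) (c 1) r ≠ r := hr 0
      have hr1 : mv1 (c 0) (c 1) r ≠ r := hr 1
      have hw0 : mv0 (c 0) (c 1) r ≠ w := hc 0
      have hw1 : mv1 (c 0) (c 1) r ≠ w := hc 1
      rcases hw with (h2 | h2) | hw
      · exact absurd h2 hr0
      · exact absurd h2 hr1
      rcases hw w (mem_vs w) with ((h2 | h2) | h2) | ⟨h2, h3⟩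
      · exfalso
        rcases hrw with rfl | hrw
        · simp at h2
        · have : adj r w = true := hrw
          simp [this] at h2
      · exact absurd h2 hw0
      · exact absurd h2 hw1
      · exact ih _ (by rw [← hn]; exact h3) ![mv0 (c 0) (c 1) r, mv1 (c 0) (c 1) r] w rfl h2

lemma not_wins {c : Fin 2 → Fin 14} {r : Fin 14} (h : Wins (Active G) c r) :
    safe (c 0) (c 1) r = false := by
  induction h with
  | step c r d hd _ ih =>
    by_contra hs
    rw [Bool.not_eq_false] at hs
    have h := checkA_eq
    simp only [checkA, List.all_eq_true, List.any_eq_true, Bool.or_eq_true, Bool.and_eq_true,
      bne_iff_ne, Bool.not_eq_true'] at h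
    rcases h (c 0) (mem_vs _) (c 1) (mem_vs _) r (mem_vs _) with h | h
    · rw [h] at hs
      exact Bool.noConfusion hs
    rcases h (d 0) (mem_vs _) with h | h
    · have : adj (c 0) (d 0) = true := hd 0
      simp [this] at h
    rcases h (d 1) (mem_vs _) with h | ⟨⟨h0, h1⟩, w, -, ⟨⟨hw, hw0⟩, hw1⟩, hsafe⟩
    · have : adj (c 1) (d 1) = true := hd 1
      simp [this] at h
    · have h2 := ih w (by
        intro i
        fin_cases i
        · exact h0
        · exact h1) hw (by
        intro i
        fin_cases i
        · exact hw0
        · exact hw1)
      rw [hsafe] at h2
      exact Bool.noConfusion h2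

lemma not_wins_zero {V : Type} {M : V → V → Prop} (hM : ∀ x, ∃ y, M x y) {c : Fin 0 → V} {r : V}
    (h : Wins M c r) : False := by
  induction h with
  | step c r d hd _ ih =>
    obtain ⟨w, hw⟩ := hM r
    exact ih w (fun i => i.elim0) hw (fun i => i.elim0)

lemma wins_comp {V : Type} {M : V → V → Prop} {k m : ℕ} (f : Fin m → Fin k) {c : Fin k → V}
    {r : V} (h : Wins M c r) (hf : Function.Surjective f) : Wins M (c ∘ f) r := by
  induction h with
  | step c r d hd _ ih =>
    refine Wins.step _ r (d ∘ f) (fun i => hd (f i)) fun w hr hw hc => ih w ?_ hw ?_
    · intro i
      obtain ⟨j, rfl⟩ := hf i
      exact hr j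
    · intro i
      obtain ⟨j, rfl⟩ := hf i
      exact hc j

lemma copsWin_two_of_one {V : Type} {M : V → V → Prop} (h : CopsWin M 1) : CopsWin M 2 := by
  obtain ⟨c, hc⟩ := h
  refine ⟨c ∘ fun _ => 0, fun r hr => wins_comp _ (hc r fun i => ?_) ?_⟩
  · rw [Subsingleton.elim i 0]
    exact hr 0
  · intro i
    exact ⟨0, Subsingleton.elim _ _⟩

lemma adj_ex : ∀ x : Fin 14, ∃ y, adj x y = true := by decide +kernel

/-- In the active game, the robber has a safe start for every start of two cops. -/
lemma start_A : ∀ a b : Fin 14, ∃ r : Fin 14, a ≠ r ∧ b ≠ r ∧ safe a b r = true := by
  decide +kernel

lemma not_copsWin_two : ¬ CopsWin (Active G) 2 := by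
  rintro ⟨c, hc⟩
  obtain ⟨r, h0, h1, h2⟩ := start_A (c 0) (c 1)
  have := not_wins (hc r (by
    intro i
    fin_cases i
    · exact h0
    · exact h1))
  rw [h2] at this
  exact Bool.noConfusion this

lemma copsWin_P : CopsWin (Passive G) 2 := by
  refine ⟨![7, 2], fun r hr => wins_of_rk _ _ r rfl ?_⟩
  have h0 : 7 ≠ r := hr 0
  have h1 : 2 ≠ r := hr 1
  revert h0 h1
  revert r
  decide +kernel

/-- The check for one cop in the passive game. -/
lemma one_P : ∀ c d r : Fin 14, c ≠ r → adj c r = false → (d = c ∨ adj c d = true) →
    d ≠ r ∧ ∃ w : Fin 14, (w = r ∨ adj r w = true) ∧ d ≠ w ∧ adj d w = false := by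
  decide +kernel

lemma not_wins_one {c : Fin 1 → Fin 14} {r : Fin 14} (h : Wins (Passive G) c r) :
    c 0 = r ∨ adj (c 0) r = true := by
  induction h with
  | step c r d hd _ ih =>
    by_contra hne
    rw [not_or, Bool.not_eq_true] at hne
    obtain ⟨hdr, w, hw, hdw, hadj⟩ := one_P (c 0) (d 0) r hne.1 hne.2 (hd 0)
    rcases ih w (fun i => by rw [Subsingleton.elim i 0]; exact hdr) hw
      (fun i => by rw [Subsingleton.elim i 0]; exact hdw) with h | h
    · exact hdw h
    · rw [h] at hadj
      exact Bool.noConfusion hadj

lemma start_P : ∀ a : Fin 14, ∃ r : Fin 14, a ≠ r ∧ adj a r = false := by
  decide +kernel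

lemma not_copsWin_P_one : ¬ CopsWin (Passive G) 1 := by
  rintro ⟨c, hc⟩
  obtain ⟨r, hr, hr2⟩ := start_P (c 0)
  rcases not_wins_one (hc r fun i => by rw [Subsingleton.elim i 0]; exact hr) with h | h
  · exact hr h
  · rw [h] at hr2
    exact Bool.noConfusion hr2

lemma not_copsWin_zero {V : Type} [Nonempty V] {M : V → V → Prop} (hM : ∀ x, ∃ y, M x y) :
    ¬ CopsWin M 0 := by
  rintro ⟨c, hc⟩
  exact not_wins_zero hM (hc (Classical.arbitrary V) fun i => i.elim0)

lemma copsWin_all (M : Fin 14 → Fin 14 → Prop) : CopsWin M 14 :=
  ⟨id, fun r hr => absurd rfl (hr r)⟩

lemma cop_G : cop G = 2 := by
  have h : sInf {k | CopsWin (Passive G) k} ∈ {k | CopsWin (Passive G) k} :=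
    Nat.sInf_mem ⟨14, copsWin_all _⟩
  have h1 : cop G ≤ 2 := Nat.sInf_le copsWin_P
  have h2 : CopsWin (Passive G) (cop G) := h
  interval_cases hk : cop G
  · exact absurd h2 (not_copsWin_zero fun x => ⟨x, Or.inl rfl⟩)
  · exact absurd h2 not_copsWin_P_one
  · rfl

lemma acop_G : 3 ≤ acop G := by
  have h : sInf {k | CopsWin (Active G) k} ∈ {k | CopsWin (Active G) k} :=
    Nat.sInf_mem ⟨14, copsWin_all _⟩
  have h2 : CopsWin (Active G) (acop G) := h
  by_contra hlt
  rw [not_le] at hlt
  interval_cases hk : acop G
  · exact absurd h2 (not_copsWin_zero fun x => adj_ex x)
  · exact not_copsWin_two (copsWin_two_of_one h2)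
  · exact not_copsWin_two h2

/-- A spanning tree: parents of the vertices other than `0`. -/
def par (v : Fin 14) : Fin 14 := ![0, 0, 5, 8, 13, 0, 0, 5, 0, 1, 9, 8, 13, 0] v

/-- The depths in the spanning tree. -/
def dep (v : Fin 14) : ℕ := ![0, 1, 2, 2, 2, 1, 1, 2, 1, 2, 3, 2, 2, 1] v

lemma par_check : ∀ v : Fin 14, v = 0 ∨ (adj (par v) v = true ∧ dep (par v) < dep v) := by
  decide +kernel

lemma G_connected : G.Connected := by
  have h0 : ∀ (n : ℕ) (v : Fin 14), dep v = n → G.Reachable 0 v := by
    intro n
    induction n using Nat.strong_induction_on with
    | _ n ih =>
      intro v hv
      rcases par_check v with rfl | ⟨h1, h2⟩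
      · exact SimpleGraph.Reachable.refl _
      · exact (ih _ (by rw [← hv]; exact h2) (par v) rfl).trans
          (SimpleGraph.Adj.reachable (show G.Adj (par v) v from h1))
  exact SimpleGraph.connected_iff_exists_forall_reachable _ |>.2 ⟨0, fun v => h0 _ v rfl⟩

lemma G_not_bipartite : ¬ G.Colorable 2 := by
  rintro ⟨f⟩
  have h1 : f 0 ≠ f 1 := f.valid (show adj 0 1 = true by decide)
  have h2 : f 1 ≠ f 5 := f.valid (show adj 1 5 = true by decide)
  have h3 : f 0 ≠ f 5 := f.valid (show adj 0 5 = true by decide)
  have h : ∀ a b c : Fin 2, a ≠ b → b ≠ c → a ≠ c → False := by decide
  exact h _ _ _ h1 h2 h3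

/-- There is a connected non-bipartite graph `G` with `c(G) = 2` and `c_a(G) ≥ 3`. -/
theorem result : ∃ G : SimpleGraph (Fin 14), G.Connected ∧ ¬ G.Colorable 2 ∧
    cop G = 2 ∧ 3 ≤ acop G :=
  ⟨G, G_connected, G_not_bipartite, cop_G, acop_G⟩

end Pool.Agent.Results.MP_bb83f1_co.ActiveExceeds
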